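import Pool.Agent.X127.MLS.Final

set_option autoImplicit false

open Pool.Agent.X127.MLS

/-- There is no absolute constant `C` with `1 / c_MLS ≤ C ρ_ent` (nor with `1 / c_MLS ≤ C τ_ent`)
for all finite irreducible reversible chains, whatever the constant `Cent > 0` in the definition
of `ρ_ent` is. -/
theorem Pool.Agent.Results.MP_bada7b_pr.InverseMLSNotBounded.result :
    ∀ Cent : ℝ, 0 < Cent → ∀ C : ℝ,
      ∃ (n : ℕ) (M : RevChain (Fin n)), 0 < M.cMLS ∧
        C * M.rhoEnt Cent < 1 / M.cMLS ∧ C * M.tauEnt < 1 / M.cMLS :=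
  fun Cent hC C => main Cent hC C
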